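import Pool.Agent.H55.GW.Targets3
import Pool.Agent.H55.GW.Basic

/-!
Module FLP (MP_97b7aa_co, stage 3): flipping a matching along disjoint paths.
-/

set_option autoImplicit false

namespace Pool.Agent.H73.GW

open Pool.Agent.H55.GW Classical

section lists

variable {W : Type} {l : List W}

theorem nxt_mem {u v : W} (h : Nxt l u v) : u ∈ l ∧ v ∈ l := by
  obtain ⟨l₁, l₂, rfl⟩ := h
  simp

theorem nxt_rel {D : W → W → Prop} (hc : l.IsChain D) {u v : W} (h : Nxt l u v) : D u v := by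
  obtain ⟨l₁, l₂, rfl⟩ := h
  exact (List.isChain_append_cons_cons.1 hc).2.1

theorem nxt_right_unique (hn : l.Nodup) {u v v' : W} (h : Nxt l u v) (h' : Nxt l u v') :
    v = v' := by
  obtain ⟨l₁, l₂, h1⟩ := h
  obtain ⟨k₁, k₂, h2⟩ := h'
  have n1 := hn
  rw [h1] at n1
  have hu1 : u ∉ l₁ := by
    intro hu
    exact (List.nodup_append.1 n1).2.2 u hu u (by simp) rfl
  have hu2 : u ∉ v :: l₂ := by
    have := (List.nodup_append.1 n1).2.1
    exact (List.nodup_cons.1 this).1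
  rw [h1] at h2
  have h3 := (List.append_cons_inj_of_notMem hu1 hu2).1 h2
  exact (List.cons.inj h3.2.2).1

theorem nxt_rev {u v : W} : Nxt l.reverse u v ↔ Nxt l v u := by
  constructor
  · rintro ⟨l₁, l₂, h⟩
    refine ⟨l₂.reverse, l₁.reverse, ?_⟩
    have := congrArg List.reverse h
    rw [List.reverse_reverse] at this
    rw [this]
    simp
  · rintro ⟨l₁, l₂, h⟩
    refine ⟨l₂.reverse, l₁.reverse, ?_⟩
    rw [h]
    simp

theorem nxt_left_unique (hn : l.Nodup) {u u' v : W} (h : Nxt l u v) (h' : Nxt l u' v) :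
    u = u' :=
  nxt_right_unique (List.nodup_reverse.2 hn) (nxt_rev.2 h) (nxt_rev.2 h')

theorem exists_succ {x y : W} (hx : x ∈ l) (hy : l.getLast? = some y) (hne : x ≠ y) :
    ∃ z, Nxt l x z := by
  obtain ⟨l₁, l₂, h⟩ := List.append_of_mem hx
  cases l₂ with
  | nil =>
    rw [h] at hy
    rw [List.getLast?_append] at hy
    simp at hy
    exact absurd hy hne
  | cons z l₃ => exact ⟨z, l₁, l₃, h⟩

theorem exists_pred {x y : W} (hx : x ∈ l) (hy : l.head? = some y) (hne : x ≠ y) :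
    ∃ z, Nxt l z x := by
  obtain ⟨z, hz⟩ := exists_succ (l := l.reverse) (x := x) (y := y) (List.mem_reverse.2 hx)
    (by rw [List.getLast?_reverse]; exact hy) hne
  exact ⟨z, nxt_rev.1 hz⟩

theorem nxt_ne_head (hn : l.Nodup) {u v y : W} (h : Nxt l u v) (hy : l.head? = some y) :
    v ≠ y := by
  obtain ⟨l₁, l₂, rfl⟩ := h
  intro he
  cases l₁ with
  | nil =>
    simp only [List.nil_append, List.head?_cons, Option.some.injEq] at hy
    rw [he, ← hy] at hn
    simp at hn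
  | cons a l₃ =>
    simp only [List.cons_append, List.head?_cons, Option.some.injEq] at hy
    rw [he, ← hy] at hn
    simp at hn

theorem nxt_ne_last (hn : l.Nodup) {u v y : W} (h : Nxt l u v) (hy : l.getLast? = some y) :
    u ≠ y :=
  nxt_ne_head (l := l.reverse) (List.nodup_reverse.2 hn) (nxt_rev.2 h)
    (by rw [List.head?_reverse]; exact hy)

end lists

theorem flp : T_FLP := by
  intro F m hF ed hed J μ hμ k Y l st en ad rm hpath hedge hdis hsame hY
  -- ends are different and the class alternatives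
  have pn : ∀ a ∈ Y, (l a).Nodup := fun a ha => (hpath a ha).2.1
  have pc : ∀ a ∈ Y, (l a).IsChain (F.D m) := fun a ha => (hpath a ha).1
  have ph : ∀ a ∈ Y, (l a).head? = some (Sum.inr (st a)) := fun a ha => (hpath a ha).2.2.1
  have pl : ∀ a ∈ Y, (l a).getLast? = some (Sum.inr (en a)) := fun a ha => (hpath a ha).2.2.2
  -- all vertices of the paths are internal
  have pint : ∀ a ∈ Y, ∀ x ∈ l a, ∃ v, x = Sum.inr v := by
    intro a ha x hx
    by_cases h1 : x = Sum.inr (st a)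
    · exact ⟨_, h1⟩
    by_cases h2 : x = Sum.inr (en a)
    · exact ⟨_, h2⟩
    obtain ⟨y, hy⟩ := exists_succ hx (pl a ha) h2
    obtain ⟨z, hz⟩ := exists_pred hx (ph a ha) h1
    have d1 := nxt_rel (pc a ha) hy
    have d2 := nxt_rel (pc a ha) hz
    rcases x with e | v
    · by_cases he : e ∈ F.base m
      · exact absurd d1 (Frame.no_out_snk he y)
      · exact absurd d2 (Frame.no_in_src he z)
    · exact ⟨v, rfl⟩
  have stm : ∀ a ∈ Y, Sum.inr (st a) ∈ l a := by
    intro a ha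
    exact List.mem_of_mem_head? (by rw [ph a ha]; simp)
  have enm : ∀ a ∈ Y, Sum.inr (en a) ∈ l a := by
    intro a ha
    exact List.mem_of_getLast? (pl a ha)
  have adm : ∀ a ∈ Y, Sum.inr (ad a) ∈ l a := by
    intro a ha
    obtain ⟨_, h | h, _⟩ := hY a ha
    · rw [h.2.2.1]; exact stm a ha
    · rw [h.2.2.1]; exact enm a ha
  have rmm : ∀ a ∈ Y, Sum.inr (rm a) ∈ l a := by
    intro a ha
    obtain ⟨_, h | h, _⟩ := hY a ha
    · rw [h.2.2.2]; exact enm a ha
    · rw [h.2.2.2]; exact stm a ha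
  have same : ∀ a ∈ Y, ∀ b ∈ Y, ∀ x, x ∈ l a → x ∈ l b → a = b := by
    intro a ha b hb x h1 h2
    by_contra hne
    exact hdis a ha b hb hne x h1 h2
  -- arcs between internal vertices alternate the classes
  have alt : ∀ v w, F.D m (Sum.inr v) (Sum.inr w) → (F.isP v ↔ ¬ F.isP w) := by
    intro v w h
    rcases h with ⟨h, _⟩ | ⟨h, _⟩
    · have := F.adj_wf _ _ h
      exact ⟨fun _ => this.2.2.2, fun _ => this.2.2.1⟩
    · have := F.adj_wf _ _ h
      exact ⟨fun a => absurd a this.2.2.2, fun a => absurd this.2.2.1 a⟩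
  -- partners
  obtain ⟨Prt, hPrt⟩ : ∃ Prt : ℕ → ℕ → Prop, ∀ v w, Prt v w ↔ ∃ a ∈ Y,
      (F.isP v ∧ Nxt (l a) (Sum.inr v) (Sum.inr w)) ∨
      (¬ F.isP v ∧ Nxt (l a) (Sum.inr w) (Sum.inr v)) := ⟨_, fun v w => Iff.rfl⟩
  have prt_symm : ∀ v w, Prt v w → Prt w v := by
    intro v w h
    rw [hPrt] at h ⊢
    obtain ⟨a, ha, ⟨h1, h2⟩ | ⟨h1, h2⟩⟩ := h
    · have := alt _ _ (nxt_rel (pc a ha) h2)
      exact ⟨a, ha, Or.inr ⟨this.1 h1, h2⟩⟩
    · have := alt _ _ (nxt_rel (pc a ha) h2)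
      exact ⟨a, ha, Or.inl ⟨this.2 h1, h2⟩⟩
  have prt_mem : ∀ v w, Prt v w → ∃ a ∈ Y, Sum.inr v ∈ l a ∧ Sum.inr w ∈ l a := by
    intro v w h
    rw [hPrt] at h
    obtain ⟨a, ha, ⟨h1, h2⟩ | ⟨h1, h2⟩⟩ := h
    · exact ⟨a, ha, nxt_mem h2⟩
    · exact ⟨a, ha, (nxt_mem h2).symm⟩
  have prt_uniq : ∀ v w w', Prt v w → Prt v w' → w = w' := by
    intro v w w' h h'
    obtain ⟨a, ha, m1, _⟩ := prt_mem v w h
    obtain ⟨b, hb, m2, _⟩ := prt_mem v w' h'
    rw [hPrt] at h h'
    obtain ⟨a', ha', h⟩ := h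
    obtain ⟨b', hb', h'⟩ := h'
    have e1 : a' = b' := by
      refine same a' ha' b' hb' (Sum.inr v) ?_ ?_
      · rcases h with ⟨_, h⟩ | ⟨_, h⟩
        · exact (nxt_mem h).1
        · exact (nxt_mem h).2
      · rcases h' with ⟨_, h⟩ | ⟨_, h⟩
        · exact (nxt_mem h).1
        · exact (nxt_mem h).2
    subst e1
    rcases h with ⟨p1, h⟩ | ⟨p1, h⟩
    · rcases h' with ⟨p2, h'⟩ | ⟨p2, h'⟩
      · exact Sum.inr_injective (nxt_right_unique (pn a' ha') h h')
      · exact absurd p1 p2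
    · rcases h' with ⟨p2, h'⟩ | ⟨p2, h'⟩
      · exact absurd p2 p1
      · exact Sum.inr_injective (nxt_left_unique (pn a' ha') h h')
  obtain ⟨J', hJ'⟩ : ∃ J' : Set ℕ, J' = {v | (v ∈ J ∧ ∀ a ∈ Y, v ≠ rm a) ∨ ∃ a ∈ Y, v = ad a} :=
    ⟨_, rfl⟩
  have memJ' : ∀ v, v ∈ J' ↔ ((v ∈ J ∧ ∀ a ∈ Y, v ≠ rm a) ∨ ∃ a ∈ Y, v = ad a) := by
    intro v
    rw [hJ']
    rfl
  -- Claim A
  have claimA : ∀ v ∈ J', ∀ a ∈ Y, Sum.inr v ∈ l a → ∃ w, Prt v w := by
    intro v hv a ha hva
    have cases' : (v ∈ J ∧ v ≠ rm a) ∨ v = ad a := by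
      rcases (memJ' v).1 hv with h | ⟨b, hb, h⟩
      · exact Or.inl ⟨h.1, h.2 a ha⟩
      · right
        have : a = b := same a ha b hb (Sum.inr v) hva (by rw [h]; exact adm b hb)
        rw [this]
        exact h
    obtain ⟨hne, hcl, _⟩ := hY a ha
    by_cases hP : F.isP v
    · have h1 : v ≠ en a := by
        rcases hcl with hcl | hcl
        · rcases cases' with h | h
          · rw [← hcl.2.2.2]; exact h.2
          · rw [h, hcl.2.2.1]; exact hne
        · intro h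
          rw [h] at hP
          exact hcl.2.1 hP
      obtain ⟨y, hy⟩ := exists_succ hva (pl a ha) (fun h => h1 (Sum.inr_injective h))
      obtain ⟨w, hw⟩ := pint a ha y (nxt_mem hy).2
      rw [hw] at hy
      exact ⟨w, (hPrt v w).2 ⟨a, ha, Or.inl ⟨hP, hy⟩⟩⟩
    · have h1 : v ≠ st a := by
        rcases hcl with hcl | hcl
        · intro h
          rw [h] at hP
          exact hP hcl.1
        · rcases cases' with h | h
          · rw [← hcl.2.2.2]; exact h.2
          · rw [h, hcl.2.2.1]; exact hne.symm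
      obtain ⟨y, hy⟩ := exists_pred hva (ph a ha) (fun h => h1 (Sum.inr_injective h))
      obtain ⟨w, hw⟩ := pint a ha y (nxt_mem hy).1
      rw [hw] at hy
      exact ⟨w, (hPrt v w).2 ⟨a, ha, Or.inr ⟨hP, hy⟩⟩⟩
  -- Claim B
  have claimB : ∀ v w, Prt v w → v ∈ J' := by
    intro v w h
    rw [hPrt] at h
    obtain ⟨a, ha, h⟩ := h
    have hva : Sum.inr v ∈ l a := by
      rcases h with ⟨_, h⟩ | ⟨_, h⟩
      · exact (nxt_mem h).1
      · exact (nxt_mem h).2
    rw [memJ']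
    by_cases had : v = ad a
    · exact Or.inr ⟨a, ha, had⟩
    obtain ⟨hne, hcl, _, hin⟩ := hY a ha
    refine Or.inl ⟨hin v hva had, ?_⟩
    intro b hb hrb
    have hab : a = b := same a ha b hb (Sum.inr v) hva (by rw [hrb]; exact rmm b hb)
    rw [← hab] at hrb
    rcases h with ⟨hP, h⟩ | ⟨hP, h⟩
    · rcases hcl with hcl | hcl
      · apply nxt_ne_last (pn a ha) h (pl a ha)
        rw [hrb, hcl.2.2.2]
      · rw [hrb, hcl.2.2.2] at hP
        exact hcl.1 hP
    · rcases hcl with hcl | hcl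
      · rw [hrb, hcl.2.2.2] at hP
        exact hP hcl.2.1
      · apply nxt_ne_head (pn a ha) h (ph a ha)
        rw [hrb, hcl.2.2.2]
  -- the mate of a vertex of a path lying in J is on the path
  have mate : ∀ a ∈ Y, ∀ u, Sum.inr u ∈ l a → u ∈ J → m u ∈ l a := by
    intro a ha u hu huJ
    obtain ⟨hne, hcl, hadJ, _⟩ := hY a ha
    have huad : u ≠ ad a := by
      intro h
      rw [h] at huJ
      exact hadJ huJ
    by_cases hP : F.isP u
    · have h1 : u ≠ st a := by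
        rcases hcl with hcl | hcl
        · rw [← hcl.2.2.1]; exact huad
        · intro h
          rw [h] at hP
          exact hcl.1 hP
      obtain ⟨y, hy⟩ := exists_pred hu (ph a ha) (fun h => h1 (Sum.inr_injective h))
      have := Frame.in_P hF hP (nxt_rel (pc a ha) hy)
      rw [← this]
      exact (nxt_mem hy).1
    · have h1 : u ≠ en a := by
        rcases hcl with hcl | hcl
        · intro h
          rw [h] at hP
          exact hP hcl.2.1
        · rw [← hcl.2.2.1]; exact huad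
      obtain ⟨y, hy⟩ := exists_succ hu (pl a ha) (fun h => h1 (Sum.inr_injective h))
      have := Frame.out_Q hF hP (nxt_rel (pc a ha) hy)
      rw [← this]
      exact (nxt_mem hy).2
  -- vertices of J off the paths are in J'
  have offJ : ∀ v ∈ J, (∀ a ∈ Y, Sum.inr v ∉ l a) → v ∈ J' := by
    intro v hv hoff
    rw [memJ']
    refine Or.inl ⟨hv, fun a ha h => hoff a ha ?_⟩
    rw [h]
    exact rmm a ha
  have offJ' : ∀ v ∈ J', (∀ a ∈ Y, Sum.inr v ∉ l a) → v ∈ J := by
    intro v hv hoff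
    rcases (memJ' v).1 hv with h | ⟨b, hb, h⟩
    · exact h.1
    · exact absurd (by rw [h]; exact adm b hb) (hoff b hb)
  have noPrt_off : ∀ v ∈ J', (¬ ∃ w, Prt v w) → ∀ a ∈ Y, Sum.inr v ∉ l a :=
    fun v hv h a ha hva => h (claimA v hv a ha hva)
  have off_noPrt : ∀ v, (∀ a ∈ Y, Sum.inr v ∉ l a) → ¬ ∃ w, Prt v w := by
    rintro v hoff ⟨w, h⟩
    obtain ⟨a, ha, h1, _⟩ := prt_mem v w h
    exact hoff a ha h1
  obtain ⟨μ', hμ1, hμ2⟩ : ∃ μ' : ℕ → Vx, (∀ v w, Prt v w → μ' v = Sum.inr w) ∧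
      ∀ v, (¬ ∃ w, Prt v w) → μ' v = μ v := by
    refine ⟨fun v => if h : ∃ w, Prt v w then Sum.inr (Classical.choose h) else μ v, ?_, ?_⟩
    · intro v w h
      have hex : ∃ w, Prt v w := ⟨w, h⟩
      simp only [dif_pos hex]
      rw [prt_uniq v _ _ (Classical.choose_spec hex) h]
    · intro v h
      simp only [dif_neg h]
  rw [← hJ']
  refine ⟨μ', ?_, ?_⟩
  · intro v hv
    by_cases hp : ∃ w, Prt v w
    · obtain ⟨w, hw⟩ := hp
      have hw' := prt_symm v w hw
      have h1 := hμ1 v w hw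
      have h2 := hμ1 w v hw'
      have hwJ := claimB w v hw'
      have hGe : F.G (Sum.inr w) (Sum.inr v) ∧ ed (Sum.inr w) (Sum.inr v) := by
        have := (hPrt v w).1 hw
        obtain ⟨a, ha, ⟨_, h⟩ | ⟨_, h⟩⟩ := this
        · exact ⟨Frame.G_symm (Frame.D_G (nxt_rel (pc a ha) h)), hed _ _ (hedge a ha _ _ h)⟩
        · exact ⟨Frame.D_G (nxt_rel (pc a ha) h), hedge a ha _ _ h⟩
      have hvV : v ∈ F.V := by
        rcases hGe.1 with h | h
        · exact (F.adj_wf _ _ h).2.1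
        · exact (F.adj_wf _ _ h).1
      exact ⟨hvV, Or.inr ⟨w, hwJ, h1, h2, hGe.1, hGe.2⟩⟩
    · have hoff := noPrt_off v hv hp
      have hvJ := offJ' v hv hoff
      rw [hμ2 v hp]
      obtain ⟨hV, h | h⟩ := hμ v hvJ
      · exact ⟨hV, Or.inl h⟩
      · obtain ⟨u, huJ, hu, hu', hG, hd⟩ := h
        have huoff : ∀ a ∈ Y, Sum.inr u ∉ l a := by
          intro a ha hua
          have h1 := mate a ha u hua huJ
          rw [← hsame a ha u hua huJ, hu'] at h1
          exact hoff a ha h1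
        refine ⟨hV, Or.inr ⟨u, offJ u huJ huoff, hu, ?_, hG, hd⟩⟩
        rw [hμ2 u (off_noPrt u huoff)]
        exact hu'
  · intro e v hv
    rw [← memJ']
    constructor
    · rintro ⟨hvJ', he⟩
      by_cases hp : ∃ w, Prt v w
      · obtain ⟨w, hw⟩ := hp
        rw [hμ1 v w hw] at he
        cases he
      · rw [hμ2 v hp] at he
        exact ⟨offJ' v hvJ' (noPrt_off v hvJ' hp), he⟩
    · rintro ⟨hvJ, he⟩
      have hoff : ∀ a ∈ Y, Sum.inr v ∉ l a := by
        intro a ha hva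
        have h1 := mate a ha v hva hvJ
        rw [← hsame a ha v hva hvJ, he] at h1
        obtain ⟨w, hw⟩ := pint a ha _ h1
        cases hw
      refine ⟨offJ v hvJ hoff, ?_⟩
      rw [hμ2 v (off_noPrt v hoff)]
      exact he

end Pool.Agent.H73.GW
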