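import Pool.Agent.H55.GW.Targets3

/-!
Modules FPM, SPL, BAL (MP_97b7aa_co, stage 3).
-/

set_option autoImplicit false

namespace Pool.Agent.H73.GW

open Pool.Agent.H55.GW Classical

theorem bs_congr {F : Frame} {J J' : Set ℕ} {m m' : ℕ → Vx} {e : ℕ}
    (h : ∀ v, F.att e v → ((v ∈ J ∧ m v = Sum.inl e) ↔ (v ∈ J' ∧ m' v = Sum.inl e))) :
    Bs F J m e ↔ Bs F J' m' e := by
  unfold Bs
  constructor
  · rintro (⟨v, hv, h1⟩ | h1)
    · exact Or.inl ⟨v, hv, by rw [h1, h v hv]⟩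
    · exact Or.inr h1
  · rintro (⟨v, hv, h1⟩ | h1)
    · exact Or.inl ⟨v, hv, by rw [h1, h v hv]⟩
    · exact Or.inr h1

theorem fpm : T_FPM := by
  intro F B
  constructor
  · rintro ⟨hB, m, hm, hb⟩
    refine ⟨m, ?_, ?_⟩
    · intro v hv
      obtain ⟨_, h | h⟩ := hm v hv
      · obtain ⟨e, he, ha, _⟩ := h
        refine ⟨fun e' he' => ?_, fun u hu => ?_⟩
        · rw [he] at he'
          cases he'
          exact ha
        · rw [he] at hu
          cases hu
      · obtain ⟨u, _, hu, hu', hG, _⟩ := h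
        refine ⟨fun e' he' => ?_, fun u' hu'' => ?_⟩
        · rw [hu] at he'
          cases he'
        · rw [hu] at hu''
          cases hu''
          refine ⟨?_, hu'⟩
          exact hG.symm
    · ext e
      constructor
      · rintro ⟨he, h⟩
        rw [hb e he]
        rcases h with ⟨v, hv, h1⟩ | h
        · refine Or.inl ⟨v, hv, ?_⟩
          rw [h1]
          have := (F.att_wf e v hv).2
          constructor
          · rintro a ⟨_, b⟩
            exact a b
          · intro a b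
            exact a ⟨this, b⟩
        · exact Or.inr h
      · intro he
        have heE : e ∈ (F.E : Set ℕ) := hB he
        refine ⟨heE, ?_⟩
        rcases (hb e heE).1 he with ⟨v, hv, h1⟩ | h
        · refine Or.inl ⟨v, hv, ?_⟩
          rw [h1]
          have := (F.att_wf e v hv).2
          constructor
          · intro a b
            exact a ⟨this, b⟩
          · rintro a ⟨_, b⟩
            exact a b
        · exact Or.inr h
  · rintro ⟨m, hm, rfl⟩
    refine ⟨fun e he => he.1, m, ?_, ?_⟩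
    · intro v hv
      refine ⟨hv, ?_⟩
      rcases hmv : m v with e | u
      · exact Or.inl ⟨e, rfl, (hm v hv).1 e hmv, trivial⟩
      · have h1 := (hm v hv).2 u hmv
        refine Or.inr ⟨u, ?_, rfl, h1.2, h1.1.symm, trivial⟩
        rcases h1.1 with h | h
        · exact (F.adj_wf _ _ h).2.1
        · exact (F.adj_wf _ _ h).1
    · intro e he
      constructor
      · rintro ⟨_, h⟩
        rcases h with ⟨v, hv, h1⟩ | h
        · refine Or.inl ⟨v, hv, ?_⟩
          rw [h1]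
          have := (F.att_wf e v hv).2
          constructor
          · rintro a ⟨_, b⟩
            exact a b
          · intro a b
            exact a ⟨this, b⟩
        · exact Or.inr h
      · intro h
        refine ⟨he, ?_⟩
        rcases h with ⟨v, hv, h1⟩ | h
        · refine Or.inl ⟨v, hv, ?_⟩
          rw [h1]
          have := (F.att_wf e v hv).2
          constructor
          · intro a b
            exact a ⟨this, b⟩
          · rintro a ⟨_, b⟩
            exact a b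
        · exact Or.inr h

theorem spl : T_SPL := by
  intro F ed ed₁ ed₂ X₁ X₂ A₁ A₂ J s1 s2 hed hno hX hleaf hA1 hA2
  have nX : ∀ e, e ∈ X₁ → e ∈ X₂ → False := fun e h1 h2 => Set.disjoint_left.1 hX h1 h2
  constructor
  · rintro ⟨_, m, hm, hb⟩
    refine ⟨{v | v ∈ J ∧ ed₁ (m v) (Sum.inr v)}, fun v hv => hv.1, ⟨hA1, m, ?_, ?_⟩,
      ⟨hA2, m, ?_, ?_⟩⟩
    · rintro v ⟨hvJ, hv1⟩
      obtain ⟨hV, h | h⟩ := hm v hvJ
      · obtain ⟨e, he, ha, _⟩ := h
        rw [he] at hv1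
        exact ⟨hV, Or.inl ⟨e, he, ha, hv1⟩⟩
      · obtain ⟨u, huJ, hu, hu', hG, _⟩ := h
        rw [hu] at hv1
        refine ⟨hV, Or.inr ⟨u, ⟨huJ, ?_⟩, hu, hu', hG, hv1⟩⟩
        rw [hu']
        exact s1 _ _ hv1
    · intro e he
      have h1 : e ∈ A₁ ↔ e ∈ A₁ ∪ A₂ :=
        ⟨fun h => Or.inl h, fun h => h.elim id fun h' => (nX e he (hA2 h')).elim⟩
      rw [h1, hb e (Or.inl he)]
      refine bs_congr fun v hv => ?_
      constructor
      · rintro ⟨a, b⟩
        refine ⟨⟨a, ?_⟩, b⟩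
        rw [b]
        exact (hleaf e v hv).1.2 he
      · rintro ⟨a, b⟩
        exact ⟨a.1, b⟩
    · rintro v ⟨hvJ, hv1⟩
      have hv1' : ¬ ed₁ (m v) (Sum.inr v) := fun h => hv1 ⟨hvJ, h⟩
      obtain ⟨hV, h | h⟩ := hm v hvJ
      · obtain ⟨e, he, ha, hd⟩ := h
        rw [he] at hv1'
        exact ⟨hV, Or.inl ⟨e, he, ha, ((hed _ _).1 hd).resolve_left hv1'⟩⟩
      · obtain ⟨u, huJ, hu, hu', hG, hd⟩ := h
        rw [hu] at hv1'
        refine ⟨hV, Or.inr ⟨u, ⟨huJ, ?_⟩, hu, hu', hG, ((hed _ _).1 hd).resolve_left hv1'⟩⟩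
        rintro ⟨_, h⟩
        rw [hu'] at h
        exact hv1' (s1 _ _ h)
    · intro e he
      have h1 : e ∈ A₂ ↔ e ∈ A₁ ∪ A₂ :=
        ⟨fun h => Or.inr h, fun h => h.elim (fun h' => (nX e (hA1 h') he).elim) id⟩
      rw [h1, hb e (Or.inr he)]
      refine bs_congr fun v hv => ?_
      constructor
      · rintro ⟨a, b⟩
        refine ⟨⟨a, ?_⟩, b⟩
        rintro ⟨_, h⟩
        rw [b] at h
        exact nX e ((hleaf e v hv).1.1 h) he
      · rintro ⟨a, b⟩
        exact ⟨a.1, b⟩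
  · rintro ⟨J₁, hJ, ⟨_, m₁, hm1, hb1⟩, ⟨_, m₂, hm2, hb2⟩⟩
    refine ⟨Set.union_subset_union hA1 hA2, fun v => if v ∈ J₁ then m₁ v else m₂ v, ?_, ?_⟩
    · intro v hv
      by_cases h1 : v ∈ J₁
      · obtain ⟨hV, h | h⟩ := hm1 v h1
        · obtain ⟨e, he, ha, hd⟩ := h
          refine ⟨hV, Or.inl ⟨e, ?_, ha, (hed _ _).2 (Or.inl hd)⟩⟩
          simp only [if_pos h1]
          exact he
        · obtain ⟨u, huJ, hu, hu', hG, hd⟩ := h
          refine ⟨hV, Or.inr ⟨u, hJ huJ, ?_, ?_, hG, (hed _ _).2 (Or.inl hd)⟩⟩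
          · simp only [if_pos h1]
            exact hu
          · simp only [if_pos huJ]
            exact hu'
      · obtain ⟨hV, h | h⟩ := hm2 v ⟨hv, h1⟩
        · obtain ⟨e, he, ha, hd⟩ := h
          refine ⟨hV, Or.inl ⟨e, ?_, ha, (hed _ _).2 (Or.inr hd)⟩⟩
          simp only [if_neg h1]
          exact he
        · obtain ⟨u, huJ, hu, hu', hG, hd⟩ := h
          refine ⟨hV, Or.inr ⟨u, huJ.1, ?_, ?_, hG, (hed _ _).2 (Or.inr hd)⟩⟩
          · simp only [if_neg h1]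
            exact hu
          · simp only [if_neg huJ.2]
            exact hu'
    · rintro e (he | he)
      · have h1 : e ∈ A₁ ∪ A₂ ↔ e ∈ A₁ :=
          ⟨fun h => h.elim id fun h' => (nX e he (hA2 h')).elim, fun h => Or.inl h⟩
        rw [h1, hb1 e he]
        refine bs_congr fun v hv => ?_
        constructor
        · rintro ⟨a, b⟩
          exact ⟨hJ a, by simp only [if_pos a]; exact b⟩
        · rintro ⟨a, b⟩
          by_cases h2 : v ∈ J₁
          · simp only [if_pos h2] at b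
            exact ⟨h2, b⟩
          · simp only [if_neg h2] at b
            obtain ⟨_, h | h⟩ := hm2 v ⟨a, h2⟩
            · obtain ⟨e', he', ha, hd⟩ := h
              rw [b] at he'
              cases he'
              exact (nX e he ((hleaf e v hv).2.1 hd)).elim
            · obtain ⟨u, huJ, hu, _⟩ := h
              rw [b] at hu
              cases hu
      · have h1 : e ∈ A₁ ∪ A₂ ↔ e ∈ A₂ :=
          ⟨fun h => h.elim (fun h' => (nX e (hA1 h') he).elim) id, fun h => Or.inr h⟩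
        rw [h1, hb2 e he]
        refine bs_congr fun v hv => ?_
        constructor
        · rintro ⟨a, b⟩
          exact ⟨a.1, by simp only [if_neg a.2]; exact b⟩
        · rintro ⟨a, b⟩
          by_cases h2 : v ∈ J₁
          · simp only [if_pos h2] at b
            obtain ⟨_, h | h⟩ := hm1 v h2
            · obtain ⟨e', he', ha, hd⟩ := h
              rw [b] at he'
              cases he'
              exact (nX e ((hleaf e v hv).1.1 hd) he).elim
            · obtain ⟨u, huJ, hu, _⟩ := h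
              rw [b] at hu
              cases hu
          · simp only [if_neg h2] at b
            exact ⟨⟨a, h2⟩, b⟩

theorem fin_J {F : Frame} {ed : Vx → Vx → Prop} {J : Set ℕ} {m : ℕ → Vx} (hm : PMat F ed J m) :
    J.Finite := F.V.finite_toSet.subset fun v hv => (hm v hv).1

theorem bal_one {F : Frame} {ed : Vx → Vx → Prop} {J : Set ℕ} {m : ℕ → Vx}
    (hm : PMat F ed J m) : ∃ i,
    {v | v ∈ J ∧ F.isP v}.ncard = {v | (∃ e, m v = Sum.inl e ∧ F.att e v ∧ v ∈ J) ∧ F.isP v}.ncard + i ∧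
    {v | v ∈ J ∧ ¬ F.isP v}.ncard
      = {v | (∃ e, m v = Sum.inl e ∧ F.att e v ∧ v ∈ J) ∧ ¬ F.isP v}.ncard + i := by
  have hfin := fin_J hm
  have split : ∀ p : ℕ → Prop, {v | v ∈ J ∧ p v}.ncard
      = {v | (∃ e, m v = Sum.inl e ∧ F.att e v ∧ v ∈ J) ∧ p v}.ncard
        + {v | (∃ u, m v = Sum.inr u ∧ v ∈ J) ∧ p v}.ncard := by
    intro p
    have f1 : {v | (∃ e, m v = Sum.inl e ∧ F.att e v ∧ v ∈ J) ∧ p v}.Finite :=
      hfin.subset fun v ⟨⟨e, he, ha, a⟩, b⟩ => a
    have f2 : {v | (∃ u, m v = Sum.inr u ∧ v ∈ J) ∧ p v}.Finite :=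
      hfin.subset fun v ⟨⟨u, hu, a⟩, b⟩ => a
    rw [← Set.ncard_union_eq ?_ f1 f2]
    · congr 1
      ext v
      constructor
      · rintro ⟨a, b⟩
        obtain ⟨_, h | h⟩ := hm v a
        · obtain ⟨e, he, ha, _⟩ := h
          exact Or.inl ⟨⟨e, he, ha, a⟩, b⟩
        · obtain ⟨u, _, hu, _⟩ := h
          exact Or.inr ⟨⟨u, hu, a⟩, b⟩
      · rintro (⟨⟨e, he, ha, a⟩, b⟩ | ⟨⟨u, hu, a⟩, b⟩)
        · exact ⟨a, b⟩
        · exact ⟨a, b⟩
    · rw [Set.disjoint_left]
      rintro v ⟨⟨e, he, ha, a⟩, b⟩ ⟨⟨u, hu, _⟩, _⟩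
      rw [he] at hu
      cases hu
  refine ⟨{v | (∃ u, m v = Sum.inr u ∧ v ∈ J) ∧ F.isP v}.ncard, split _, ?_⟩
  rw [split]
  congr 1
  have prt : ∀ v ∈ J, ∀ u, m v = Sum.inr u → u ∈ J ∧ m u = Sum.inr v ∧ (F.isP u ↔ ¬ F.isP v) := by
    intro v hv u hu
    obtain ⟨_, h | h⟩ := hm v hv
    · obtain ⟨e, he, _⟩ := h
      rw [he] at hu
      cases hu
    · obtain ⟨u', hu'J, hu', hu'', hG, _⟩ := h
      rw [hu'] at hu
      cases hu
      refine ⟨hu'J, hu'', ?_⟩
      rcases hG with h | h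
      · have := F.adj_wf _ _ h
        exact ⟨fun _ => this.2.2.2, fun _ => this.2.2.1⟩
      · have := F.adj_wf _ _ h
        exact ⟨fun a => absurd a this.2.2.2, fun a => absurd this.2.2.1 a⟩
  let g : ℕ → ℕ := fun v => match m v with
    | Sum.inr u => u
    | Sum.inl _ => 0
  have hg : ∀ v u, m v = Sum.inr u → g v = u := by
    intro v u h
    simp only [g, h]
  have himg : g '' {v | (∃ u, m v = Sum.inr u ∧ v ∈ J) ∧ F.isP v}
      = {v | (∃ u, m v = Sum.inr u ∧ v ∈ J) ∧ ¬ F.isP v} := by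
    ext v
    constructor
    · rintro ⟨w, ⟨⟨u, hu, hw⟩, hP⟩, rfl⟩
      rw [hg w u hu]
      obtain ⟨a, b, c⟩ := prt w hw u hu
      exact ⟨⟨w, b, a⟩, fun h => (c.1 h) hP⟩
    · rintro ⟨⟨u, hu, hv⟩, hP⟩
      obtain ⟨a, b, c⟩ := prt v hv u hu
      exact ⟨u, ⟨⟨v, b, a⟩, c.2 hP⟩, hg u v b⟩
  rw [← himg]
  refine Set.InjOn.ncard_image ?_
  rintro v ⟨⟨u, hu, hv⟩, _⟩ v' ⟨⟨u', hu', hv'⟩, _⟩ he
  rw [hg v u hu, hg v' u' hu'] at he
  rw [← he] at hu'
  have h1 := (prt v hv u hu).2.1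
  have h2 := (prt v' hv' u hu').2.1
  rw [h1] at h2
  exact Sum.inr_injective h2

theorem bal : T_BAL := by
  intro F ed ed' J J' m m' hm hm' h
  obtain ⟨i, a1, a2⟩ := bal_one hm
  obtain ⟨i', b1, b2⟩ := bal_one hm'
  have key : ∀ p : ℕ → Prop, {v | (∃ e, m v = Sum.inl e ∧ F.att e v ∧ v ∈ J) ∧ p v}
      = {v | (∃ e, m' v = Sum.inl e ∧ F.att e v ∧ v ∈ J') ∧ p v} := by
    intro p
    ext v
    constructor
    · rintro ⟨⟨e, he, ha, hv⟩, hp⟩
      have := (h e v ha).1 ⟨hv, he⟩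
      exact ⟨⟨e, this.2, ha, this.1⟩, hp⟩
    · rintro ⟨⟨e, he, ha, hv⟩, hp⟩
      have := (h e v ha).2 ⟨hv, he⟩
      exact ⟨⟨e, this.2, ha, this.1⟩, hp⟩
  rw [a1, a2, b1, b2, key, key]
  omega

end Pool.Agent.H73.GW
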