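import Pool.Agent.H55.GW.Targets3

/-!
Modules SUN, SQ (MP_97b7aa_co, stage 3).
-/

set_option autoImplicit false

namespace Pool.Agent.H73.GW

open Pool.Agent.H55.GW

theorem sun_gen {α : Type} [DecidableEq α] [Inhabited α] (r p : ℕ) : ∃ N : ℕ, ∀ (ι : Type) (T : Finset ι)
    (f : ι → Finset α), N ≤ T.card → (∀ t ∈ T, (f t).card ≤ r) →
    ∃ S ⊆ T, S.card = p ∧ ∃ Y : Finset α, ∀ t ∈ S, ∀ t' ∈ S, t ≠ t' → f t ∩ f t' = Y := by
  classical
  induction r with
  | zero =>
    refine ⟨p, fun ι T f hT hf => ?_⟩
    obtain ⟨S, hS, hc⟩ := Finset.exists_subset_card_eq hT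
    refine ⟨S, hS, hc, ∅, fun t ht t' _ _ => ?_⟩
    have := Finset.card_eq_zero.1 (Nat.le_zero.1 (hf t (hS ht)))
    rw [this]
    simp
  | succ r ih =>
    obtain ⟨N', ih⟩ := ih
    refine ⟨p * (r + 1) * N' + p + 1, fun ι T f hT hf => ?_⟩
    let PD : Finset ι → Prop := fun S => ∀ t ∈ S, ∀ t' ∈ S, t ≠ t' → Disjoint (f t) (f t')
    by_cases hbig : ∃ S ⊆ T, p ≤ S.card ∧ PD S
    · obtain ⟨S, hS, hc, hd⟩ := hbig
      obtain ⟨S', hS', hc'⟩ := Finset.exists_subset_card_eq hc
      refine ⟨S', hS'.trans hS, hc', ∅, fun t ht t' ht' hne => ?_⟩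
      exact Finset.disjoint_iff_inter_eq_empty.1 (hd t (hS' ht) t' (hS' ht') hne)
    · push Not at hbig
      obtain ⟨S, hSm, hSmax⟩ := Finset.exists_max_image (T.powerset.filter PD) Finset.card
        ⟨∅, by simp [PD]⟩
      rw [Finset.mem_filter, Finset.mem_powerset] at hSm
      obtain ⟨hST, hPD⟩ := hSm
      have hSp : S.card < p := by
        by_contra hge
        push Not at hge
        exact hbig S hST hge hPD
      obtain ⟨U, hU⟩ : ∃ U, U = S.biUnion f := ⟨_, rfl⟩
      have hUc : U.card ≤ p * (r + 1) := by
        rw [hU]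
        refine (Finset.card_biUnion_le_card_mul S f (r + 1) fun t ht => hf t (hST ht)).trans ?_
        exact Nat.mul_le_mul_right _ hSp.le
      have hmeet : ∀ t ∈ T \ S, ∃ x ∈ U, x ∈ f t := by
        intro t ht
        rw [Finset.mem_sdiff] at ht
        by_contra hno
        push Not at hno
        have hd : ∀ s ∈ S, Disjoint (f s) (f t) := by
          intro s hs
          rw [Finset.disjoint_left]
          intro x hx hx'
          exact hno x (by rw [hU]; exact Finset.mem_biUnion.2 ⟨s, hs, hx⟩) hx'
        have hins : insert t S ∈ T.powerset.filter PD := by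
          rw [Finset.mem_filter, Finset.mem_powerset]
          refine ⟨Finset.insert_subset ht.1 hST, ?_⟩
          intro a ha b hb hab
          rcases Finset.mem_insert.1 ha with ha | ha
          · rcases Finset.mem_insert.1 hb with hb | hb
            · exact absurd (ha.trans hb.symm) hab
            · rw [ha]
              exact (hd b hb).symm
          · rcases Finset.mem_insert.1 hb with hb | hb
            · rw [hb]
              exact hd a ha
            · exact hPD a ha b hb hab
        have := hSmax _ hins
        rw [Finset.card_insert_of_notMem ht.2] at this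
        omega
      choose! x hxU hxf using hmeet
      have hcard : U.card * N' < (T \ S).card := by
        have h1 : T.card - S.card ≤ (T \ S).card := Finset.le_card_sdiff S T
        have h2 : U.card * N' ≤ p * (r + 1) * N' := Nat.mul_le_mul_right _ hUc
        omega
      obtain ⟨y, hyU, hy⟩ := Finset.exists_lt_card_fiber_of_mul_lt_card_of_maps_to
        (f := x) (fun t ht => hxU t ht) hcard
      obtain ⟨S', hS', hc', Y, hY⟩ := ih ι ((T \ S).filter (fun t => x t = y))
        (fun t => (f t).erase y) hy.le (by
          intro t ht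
          rw [Finset.mem_filter] at ht
          have h1 : y ∈ f t := by rw [← ht.2]; exact hxf t ht.1
          have h2 := hf t (Finset.mem_sdiff.1 ht.1).1
          rw [Finset.card_erase_of_mem h1]
          omega)
      have hS'y : ∀ t ∈ S', y ∈ f t := by
        intro t ht
        have := Finset.mem_filter.1 (hS' ht)
        rw [← this.2]
        exact hxf t this.1
      refine ⟨S', ?_, hc', insert y Y, ?_⟩
      · intro t ht
        exact (Finset.mem_sdiff.1 (Finset.mem_filter.1 (hS' ht)).1).1
      · intro t ht t' ht' hne
        rw [← hY t ht t' ht' hne]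
        ext z
        have h1 := hS'y t ht
        have h2 := hS'y t' ht'
        simp only [Finset.mem_inter, Finset.mem_insert, Finset.mem_erase]
        constructor
        · rintro ⟨a, b⟩
          by_cases hz : z = y
          · exact Or.inl hz
          · exact Or.inr ⟨⟨hz, a⟩, ⟨hz, b⟩⟩
        · rintro (rfl | ⟨a, b⟩)
          · exact ⟨h1, h2⟩
          · exact ⟨a.2, b.2⟩

theorem sun : T_SUN := by
  classical
  intro r p
  obtain ⟨N, hN⟩ := sun_gen (α := Vx) r p
  refine ⟨N, fun f hf => ?_⟩
  obtain ⟨S, _, hc, Y, hY⟩ := hN (Fin N) Finset.univ f (by simp) (fun t _ => hf t)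
  refine ⟨S.orderEmbOfFin hc, Y, (S.orderEmbOfFin hc).injective, ?_⟩
  intro t t' hne x
  have := hY _ (Finset.orderEmbOfFin_mem S hc t) _ (Finset.orderEmbOfFin_mem S hc t')
    (fun h => hne ((S.orderEmbOfFin hc).injective h))
  rw [← this, Finset.mem_inter]

theorem sq : T_SQ := by
  intro k
  induction k with
  | zero =>
    intro L g
    refine ⟨L, fun f _ => ⟨id, ∅, fun j _ => Nat.lt_succ_self j, le_refl _, ?_, ?_⟩⟩
    · intro c
      exact c.elim0
    · intro c
      exact c.elim0
  | succ k ih =>
    intro L g
    obtain ⟨w, hw⟩ : ∃ w, w = g * L + 1 := ⟨_, rfl⟩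
    obtain ⟨L', hL'⟩ : ∃ L', L' = L * w + L := ⟨_, rfl⟩
    obtain ⟨N, hN⟩ := ih L' g
    refine ⟨N, fun f hf => ?_⟩
    obtain ⟨ix, mv, h1, h2, h3, h4⟩ := hN (fun c => f c.castSucc) (fun c i j hij => hf _ i j hij)
    have mono : ∀ a b, a ≤ b → b ≤ L' → ix a ≤ ix b := by
      intro a b hab
      induction b, hab using Nat.le_induction with
      | base => intro _; exact le_refl _
      | succ b hab ihb =>
        intro hb
        exact (ihb (by omega)).trans (h1 b (by omega)).le
    have smono : ∀ a b, a < b → b ≤ L' → ix a < ix b := by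
      intro a b hab hb
      exact lt_of_lt_of_le (h1 a (by omega)) (mono (a + 1) b hab hb)
    have hfm : ∀ c a b, a ≤ b → b ≤ L' → f c (ix a) ≤ f c (ix b) := by
      intro c a b hab hb
      exact hf c _ _ (mono a b hab hb) ((mono b L' hb (le_refl _)).trans h2)
    have gap : ∀ c ∈ mv, ∀ a b, a < b → b ≤ L' →
        f c.castSucc (ix a) + g ≤ f c.castSucc (ix b) := by
      intro c hc a b hab hb
      exact (h3 c hc a (by omega)).trans (hfm _ (a + 1) b hab hb)
    have const : ∀ c ∉ mv, ∀ a b, a ≤ b → b ≤ L' →
        f c.castSucc (ix a) = f c.castSucc (ix b) := by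
      intro c hc a b hab hb
      have e := h4 c hc
      have i1 := hfm c.castSucc 0 a (Nat.zero_le _) (by omega)
      have i2 := hfm c.castSucc a b hab hb
      have i3 := hfm c.castSucc b L' hb (le_refl _)
      omega
    by_cases hcase : ∃ j, j + L ≤ L' ∧ f (Fin.last k) (ix j) = f (Fin.last k) (ix (j + L))
    · obtain ⟨j, hj, he⟩ := hcase
      refine ⟨fun i => ix (j + i), {c | ∃ c' ∈ mv, c = Fin.castSucc c'}, ?_, ?_, ?_, ?_⟩
      · intro i hi
        exact smono _ _ (by omega) (by omega)
      · exact (mono _ _ hj (le_refl _)).trans h2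
      · rintro c ⟨c', hc', rfl⟩ i hi
        exact gap c' hc' _ _ (by omega) (by omega)
      · intro c
        refine Fin.lastCases (fun _ => ?_) (fun c' hc' => ?_) c
        · exact he
        · have : c' ∉ mv := fun h => hc' ⟨c', h, rfl⟩
          exact const c' this _ _ (by omega) (by omega)
    · push Not at hcase
      have step : ∀ j, j + L ≤ L' → f (Fin.last k) (ix j) + 1 ≤ f (Fin.last k) (ix (j + L)) := by
        intro j hj
        have i1 := hfm (Fin.last k) j (j + L) (by omega) hj
        have i2 := hcase j hj
        omega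
      have steps : ∀ n j, j + n * L ≤ L' →
          f (Fin.last k) (ix j) + n ≤ f (Fin.last k) (ix (j + n * L)) := by
        intro n
        induction n with
        | zero => intro j _; simp
        | succ n ihn =>
          intro j hj
          have e : j + (n + 1) * L = (j + n * L) + L := by ring
          rw [e] at hj ⊢
          have i1 := ihn j (by omega)
          have i2 := step (j + n * L) hj
          omega
      have hwL : ∀ i, i ≤ L → i * w ≤ L * w := fun i hi => Nat.mul_le_mul_right w hi
      refine ⟨fun i => ix (i * w), {c | (∃ c' ∈ mv, c = Fin.castSucc c') ∨ c = Fin.last k},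
        ?_, ?_, ?_, ?_⟩
      · intro i hi
        have e : (i + 1) * w = i * w + w := by ring
        have := hwL (i + 1) hi
        exact smono _ _ (by omega) (by omega)
      · exact (mono _ _ (by omega) (le_refl _)).trans h2
      · rintro c (⟨c', hc', rfl⟩ | rfl) i hi
        · have e : (i + 1) * w = i * w + w := by ring
          have := hwL (i + 1) hi
          exact gap c' hc' _ _ (by omega) (by omega)
        · have e : (i + 1) * w = i * w + w := by ring
          have := hwL (i + 1) hi
          have i1 := steps g (i * w) (by omega)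
          have i2 := hfm (Fin.last k) (i * w + g * L) ((i + 1) * w) (by omega) (by omega)
          exact i1.trans i2
      · intro c
        refine Fin.lastCases (fun h => ?_) (fun c' hc' => ?_) c
        · exact absurd (Or.inr rfl) h
        · have : c' ∉ mv := fun h => hc' (Or.inl ⟨c', h, rfl⟩)
          simp only [Nat.zero_mul]
          exact const c' this _ _ (by omega) (by omega)

end Pool.Agent.H73.GW
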